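import Pool.Agent.Helper61.P3.St4

/-!
# Project P3, module MNY: the statement MANY
-/

set_option autoImplicit false

open MeasureTheory Set Filter Topology
open scoped ENNReal RealInnerProductSpace

namespace Pool.Agent.Helper72.P3

open Pool.Agent.Helper61.P3 Pool.Agent.Helper20.RG Pool.Agent.Helper20.EQ
open Pool.Agent.Helper68.LM (Pl BB Bd Av HL ft fm DQ)
open Pool.Agent.Helper68.EP (elt GapP)

private theorem comb (w a b c : ℤ → ℝ≥0∞) (B C : ℝ) (I : ℝ≥0∞) (hB : 0 ≤ B) (hC : 0 ≤ C)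
    (h : ∀ l, a l ≤ b l + c l) (hb : ∑' l : ℤ, w l * b l ≤ ENNReal.ofReal B * I)
    (hc : ∑' l : ℤ, w l * c l ≤ ENNReal.ofReal C * I) :
    ∑' l : ℤ, w l * a l ≤ ENNReal.ofReal (B + C) * I := by
  calc ∑' l : ℤ, w l * a l ≤ ∑' l : ℤ, (w l * b l + w l * c l) := by
        refine ENNReal.tsum_le_tsum fun l => ?_
        rw [← mul_add]
        exact mul_le_mul' le_rfl (h l)
    _ = (∑' l : ℤ, w l * b l) + ∑' l : ℤ, w l * c l := ENNReal.tsum_add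
    _ ≤ ENNReal.ofReal B * I + ENNReal.ofReal C * I := add_le_add hb hc
    _ = ENNReal.ofReal (B + C) * I := by rw [← add_mul, ENNReal.ofReal_add hB hC]

theorem hMNY (hMPT : Pool.Agent.Helper61.P3.StMPT) (hSON : Pool.Agent.Helper61.P3.StSON)
    (hSBN : Pool.Agent.Helper61.P3.StSBN) (hSNE : Pool.Agent.Helper61.P3.StSNE)
    (hSNP : Pool.Agent.Helper61.P3.StSNP) (hSFA : Pool.Agent.Helper61.P3.StSFA) :
    Pool.Agent.Helper61.P3.StMNY := by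
  intro φ τ A c hG hA hGap
  obtain ⟨C₂, U₂, hC₂, h₂⟩ := hSBN φ τ A c hG hA hGap
  obtain ⟨C₃, U₃, hC₃, h₃⟩ := hSNE φ τ A c hG hA hGap
  obtain ⟨C₄, U₄, hC₄, h₄⟩ := hSNP φ τ A c hG hA hGap
  obtain ⟨C₅, U₅, hC₅, h₅⟩ := hSFA φ τ A c hG hA hGap
  set U₁ : ℕ := 2 + U₂ + U₃ + U₄ + U₅ with hU₁
  have hV0 : 0 < Vs (8 * U₁) := by
    unfold Vs
    positivity
  have hV1 : Vs (8 * U₁) ≤ 1 := by
    unfold Vs
    rw [div_le_one (by positivity)]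
    have h0 : (0 : ℝ) ≤ ((8 * U₁ : ℕ) : ℝ) := by positivity
    nlinarith
  obtain ⟨C₁, hC₁, h₁⟩ := hSON φ τ A c hG hA hGap (Vs (8 * U₁)) hV0 hV1
  refine ⟨10000, by norm_num, C₁ + (C₂ + (C₃ + (C₄ + C₅))), by linarith, ?_⟩
  intro R₀ f hR hf hf0
  have g₁ := h₁ R₀ f (by linarith) hf hf0
  have g₂ := h₂ R₀ f (by linarith) hf hf0
  have g₃ := h₃ R₀ f (by linarith) hf hf0
  have g₄ := h₄ f hf hf0
  have g₅ := h₅ R₀ f (by linarith) hf hf0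
  set I : ℝ≥0∞ := ∫⁻ x, ENNReal.ofReal (f x) ^ (3 : ℝ) with hI
  have q₄₅ := comb _ _ _ _ C₄ C₅ I (by linarith) (by linarith) (fun l => le_rfl) g₄ g₅
  have q₃ := comb _ _ _ _ C₃ (C₄ + C₅) I (by linarith) (by linarith) (fun l => le_rfl) g₃ q₄₅
  have q₂ := comb _ _ _ _ C₂ (C₃ + (C₄ + C₅)) I (by linarith) (by linarith) (fun l => le_rfl)
    g₂ q₃
  refine comb _ _ _ _ C₁ (C₂ + (C₃ + (C₄ + C₅))) I (by linarith) (by linarith) (fun l => ?_)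
    g₁ q₂
  refine (measure_mono ?_).trans ((measure_union_le _ _).trans (add_le_add le_rfl
    ((measure_union_le _ _).trans (add_le_add le_rfl ((measure_union_le _ _).trans
      (add_le_add le_rfl (measure_union_le _ _)))))))
  rintro x ⟨hgd, k, hk⟩
  rcases hMPT φ τ c hG U₁ k l f x (by omega) hf hf0 hk with
    ⟨u, n, ρ, hu, ht⟩ | ⟨s, u, n, ρ, hu, hs, hn, ht⟩ |
    ⟨s, u, n, n', ρ, ρ', hs, hu, hsu, hn, hn', ht, ht'⟩ | ⟨u, n, ρ, hu, hn, ht⟩ |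
    ⟨s, u, n, n', ρ, ρ', hu, hs, hn, ht, ht'⟩
  · exact Or.inl ⟨hgd, k, u, n, ρ, hu, ht⟩
  · exact Or.inr (Or.inl ⟨hgd, k, s, u, n, ρ, by omega, hs, hn, ht⟩)
  · exact Or.inr (Or.inr (Or.inl ⟨hgd, k, s, u, n, n', ρ, ρ', by omega, by omega, hsu, hn, hn',
      ht, ht'⟩))
  · exact Or.inr (Or.inr (Or.inr (Or.inl ⟨k, u, n, ρ, by omega, hn, ht⟩)))
  · exact Or.inr (Or.inr (Or.inr (Or.inr ⟨hgd, k, s, u, n, n', ρ, ρ', by omega, hs, hn, ht,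
      ht'⟩)))

end Pool.Agent.Helper72.P3
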