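import Pool.Agent.Helper61.P3.St1

/-!
# Project P3, module SMB: one ridge function; local energies
-/

set_option autoImplicit false

open MeasureTheory Set Filter Topology
open scoped ENNReal RealInnerProductSpace

namespace Pool.Agent.Helper72.P3

open Pool.Agent.Helper61.P3 Pool.Agent.Helper20.RG Pool.Agent.Helper20.EQ
open Pool.Agent.Helper68.LM (Pl BB Bd Av HL ft fm DQ)
open Pool.Agent.Helper68.EP (elt GapP)

private theorem c1_bd (t : ℝ) : 0 ≤ c1 t ∧ c1 t ≤ 1 ∧ (2 < |t| → c1 t = 0) := by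
  unfold c1
  refine ⟨le_max_left _ _, max_le zero_le_one (min_le_left _ _), fun h => ?_⟩
  apply max_eq_left
  exact (min_le_right _ _).trans (by linarith)

private theorem c1_cont : Continuous c1 := by
  unfold c1
  fun_prop

private theorem cut_bd (z : Pl) (L : ℝ) (y : Pl) : 0 ≤ cut z L y ∧ cut z L y ≤ 1 := by
  unfold cut
  have h0 := c1_bd ((y 0 - z 0) / L)
  have h1 := c1_bd ((y 1 - z 1) / L)
  exact ⟨mul_nonneg h0.1 h1.1, mul_le_one₀ h0.2.1 h1.1 h1.2.1⟩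

private theorem cut_supp (z : Pl) (L : ℝ) (hL : 0 < L) (y : Pl) (h : cut z L y ≠ 0) :
    |y 0 - z 0| ≤ 2 * L ∧ |y 1 - z 1| ≤ 2 * L := by
  unfold cut at h
  constructor
  · by_contra hc
    push Not at hc
    apply h
    rw [(c1_bd ((y 0 - z 0) / L)).2.2 (by rw [abs_div, abs_of_pos hL, lt_div_iff₀ hL]; exact hc),
      zero_mul]
  · by_contra hc
    push Not at hc
    apply h
    rw [(c1_bd ((y 1 - z 1) / L)).2.2 (by rw [abs_div, abs_of_pos hL, lt_div_iff₀ hL]; exact hc),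
      mul_zero]

private theorem cont_coord (i : Fin 2) : Continuous (fun y : Pl => y i) := by
  fun_prop

private theorem part1 (hPT : Pool.Agent.Helper20.RG.StPT) (s L₂ : ℝ) (z : Pl) (K : ℝ → ℝ)
    (hs : |s| ≤ 1) (hL : 0 < L₂) (hK : Measurable K) :
    ∫⁻ y : Pl, ENNReal.ofReal (cut z L₂ y * K (pr s y) ^ 2) ≤
      ENNReal.ofReal (4 * L₂) *
        ∫⁻ t in Icc (pr s z - 4 * L₂) (pr s z + 4 * L₂), ENNReal.ofReal (K t ^ 2) := by
  obtain ⟨hpt, -, -, -, hptc, hlin, -, -⟩ := hPT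
  have hprc : Continuous (fun y : Pl => pr s y) := by
    unfold pr
    exact (cont_coord 1).sub (continuous_const.mul (cont_coord 0))
  have hcutc : Continuous (fun y : Pl => cut z L₂ y) := by
    unfold cut
    exact (c1_cont.comp (((cont_coord 0).sub continuous_const).div_const _)).mul
      (c1_cont.comp (((cont_coord 1).sub continuous_const).div_const _))
  have hmeas : Measurable (fun y : Pl => ENNReal.ofReal (cut z L₂ y * K (pr s y) ^ 2)) :=
    (hcutc.measurable.mul ((hK.comp hprc.measurable).pow_const 2)).ennreal_ofReal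
  rw [hlin _ hmeas]
  set J : ℝ≥0∞ := ∫⁻ t in Icc (pr s z - 4 * L₂) (pr s z + 4 * L₂), ENNReal.ofReal (K t ^ 2) with hJ
  have hin : ∀ a : ℝ, ∫⁻ b : ℝ, ENNReal.ofReal (cut z L₂ (pt a b) * K (pr s (pt a b)) ^ 2) ≤
      (Icc (z 0 - 2 * L₂) (z 0 + 2 * L₂)).indicator (fun _ => J) a := by
    intro a
    by_cases ha : a ∈ Icc (z 0 - 2 * L₂) (z 0 + 2 * L₂)
    · rw [indicator_of_mem ha]
      have h1 : ∀ b : ℝ, ENNReal.ofReal (cut z L₂ (pt a b) * K (pr s (pt a b)) ^ 2) ≤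
          (fun t => (Icc (pr s z - 4 * L₂) (pr s z + 4 * L₂)).indicator
            (fun t => ENNReal.ofReal (K t ^ 2)) t) (b - s * a) := by
        intro b
        have hp : pr s (pt a b) = b - s * a := by
          unfold pr
          rw [(hpt a b).1, (hpt a b).2]
        rw [hp]
        by_cases hc : cut z L₂ (pt a b) = 0
        · rw [hc, zero_mul, ENNReal.ofReal_zero]
          exact zero_le
        · have h2 := cut_supp z L₂ hL (pt a b) hc
          rw [(hpt a b).1, (hpt a b).2] at h2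
          have h3 : |s * (a - z 0)| ≤ 2 * L₂ := by
            rw [abs_mul]
            calc |s| * |a - z 0| ≤ 1 * (2 * L₂) :=
                  mul_le_mul hs h2.1 (abs_nonneg _) zero_le_one
              _ = 2 * L₂ := one_mul _
          have h4 : b - s * a ∈ Icc (pr s z - 4 * L₂) (pr s z + 4 * L₂) := by
            have h5 := abs_le.1 h2.2
            have h6 := abs_le.1 h3
            unfold pr
            constructor <;> nlinarith [h5.1, h5.2, h6.1, h6.2]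
          show _ ≤ (Icc (pr s z - 4 * L₂) (pr s z + 4 * L₂)).indicator
            (fun t => ENNReal.ofReal (K t ^ 2)) (b - s * a)
          rw [indicator_of_mem h4]
          apply ENNReal.ofReal_le_ofReal
          have h7 := cut_bd z L₂ (pt a b)
          nlinarith [sq_nonneg (K (b - s * a)), h7.1, h7.2]
      calc ∫⁻ b : ℝ, ENNReal.ofReal (cut z L₂ (pt a b) * K (pr s (pt a b)) ^ 2)
          ≤ ∫⁻ b : ℝ, (fun t => (Icc (pr s z - 4 * L₂) (pr s z + 4 * L₂)).indicator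
            (fun t => ENNReal.ofReal (K t ^ 2)) t) (b - s * a) := lintegral_mono h1
        _ = ∫⁻ t : ℝ, (Icc (pr s z - 4 * L₂) (pr s z + 4 * L₂)).indicator
            (fun t => ENNReal.ofReal (K t ^ 2)) t := lintegral_sub_right_eq_self _ _
        _ = J := by rw [lintegral_indicator measurableSet_Icc]
    · rw [indicator_of_notMem ha]
      have h1 : ∀ b : ℝ, ENNReal.ofReal (cut z L₂ (pt a b) * K (pr s (pt a b)) ^ 2) = 0 := by
        intro b
        have hc : cut z L₂ (pt a b) = 0 := by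
          by_contra hc
          have h2 := (cut_supp z L₂ hL (pt a b) hc).1
          rw [(hpt a b).1] at h2
          have h3 := abs_le.1 h2
          exact ha ⟨by linarith [h3.1], by linarith [h3.2]⟩
        rw [hc, zero_mul, ENNReal.ofReal_zero]
      simp only [h1, lintegral_zero]
      exact le_rfl
  calc ∫⁻ a : ℝ, ∫⁻ b : ℝ, ENNReal.ofReal (cut z L₂ (pt a b) * K (pr s (pt a b)) ^ 2)
      ≤ ∫⁻ a : ℝ, (Icc (z 0 - 2 * L₂) (z 0 + 2 * L₂)).indicator (fun _ => J) a :=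
        lintegral_mono hin
    _ = J * volume (Icc (z 0 - 2 * L₂) (z 0 + 2 * L₂)) := by
        rw [lintegral_indicator measurableSet_Icc, setLIntegral_const]
    _ = ENNReal.ofReal (4 * L₂) * J := by
        rw [Real.volume_Icc, mul_comm]
        congr 2
        ring

/-- the average of a function which is constant on the interval -/
private theorem Ed_const (hGR : Pool.Agent.Helper61.P3.StGR) (κ : ℤ → ℝ) (hκ : Gr κ) (a : ℤ)
    (t c : ℝ) (ψ : ℝ → ℝ) (h : ∀ r ∈ Ia κ a t, ψ r = c) : Ed κ a ψ t = c := by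
  obtain ⟨-, hm, hv, -, -, -⟩ := hGR.1 κ hκ a t
  have h1 : ∫ r in Ia κ a t, ψ r = ∫ _ in Ia κ a t, c := setIntegral_congr_fun hm h
  have h2 : (0 : ℝ) < (2 : ℝ) ^ a := by positivity
  rw [Ed, h1, setIntegral_const, measureReal_def, hv, ENNReal.toReal_ofReal h2.le, smul_eq_mul,
    zpow_neg]
  field_simp

private theorem Ed_congr (hGR : Pool.Agent.Helper61.P3.StGR) (κ : ℤ → ℝ) (hκ : Gr κ) (a : ℤ)
    (t : ℝ) (ψ ψ' : ℝ → ℝ) (h : ∀ r ∈ Ia κ a t, ψ r = ψ' r) : Ed κ a ψ t = Ed κ a ψ' t := by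
  obtain ⟨-, hm, -, -, -, -⟩ := hGR.1 κ hκ a t
  rw [Ed, Ed, setIntegral_congr_fun hm h]

/-- the general localisation: a set made of intervals of scale `ℓ` -/
private theorem locU (hGR : Pool.Agent.Helper61.P3.StGR) (κ : ℤ → ℝ) (hκ : Gr κ) (ℓ : ℤ)
    (x y L : ℝ) (hw : (2 : ℝ) ^ ℓ ≤ L) :
    ∃ U : Set ℝ, MeasurableSet U ∧ Icc x y ⊆ U ∧ U ⊆ Icc (x - L) (y + L) ∧
      ∀ a' : ℤ, a' ≤ ℓ → ∀ t ∈ U, Ia κ a' t ⊆ U := by
  refine ⟨(lft κ ℓ) ⁻¹' Ioc (x - (2 : ℝ) ^ ℓ) y, ?_, ?_, ?_, ?_⟩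
  · exact (hGR.1 κ hκ ℓ x).2.2.2.1 measurableSet_Ioc
  · intro t ht
    obtain ⟨h1, h2⟩ := (hGR.1 κ hκ ℓ t).1
    exact ⟨by linarith [ht.1], by linarith [ht.2]⟩
  · intro t ht
    obtain ⟨h1, h2⟩ := (hGR.1 κ hκ ℓ t).1
    obtain ⟨h3, h4⟩ := ht
    exact ⟨by linarith, by linarith⟩
  · intro a' ha' t ht r hr
    have h1 := (hGR.1 κ hκ a' t).2.2.2.2.2 ℓ ha' hr
    have h2 := ((hGR.1 κ hκ ℓ t).2.2.2.2.1 r h1).1
    show lft κ ℓ r ∈ Ioc (x - (2 : ℝ) ^ ℓ) y
    rw [h2]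
    exact ht

/-- localised contraction -/
private theorem contr (hGR : Pool.Agent.Helper61.P3.StGR) (hGA : Pool.Agent.Helper61.P3.StGA)
    (κ : ℤ → ℝ) (hκ : Gr κ) (a : ℤ) (U : Set ℝ) (hU : MeasurableSet U)
    (hUa : ∀ t ∈ U, Ia κ a t ⊆ U) (β : ℝ → ℝ) (M : ℝ) (hβ : Measurable β)
    (h0 : ∀ t, 0 ≤ β t) (hM : ∀ t, β t ≤ M) :
    ∫⁻ t in U, ENNReal.ofReal (Ed κ a β t) ≤ ∫⁻ t in U, ENNReal.ofReal (β t) := by
  have hβ' : Measurable (U.indicator β) := hβ.indicator hU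
  have hb : ∀ t, |U.indicator β t| ≤ M := by
    intro t
    by_cases ht : t ∈ U
    · rw [indicator_of_mem ht, abs_of_nonneg (h0 t)]
      exact hM t
    · rw [indicator_of_notMem ht, abs_zero]
      exact (h0 t).trans (hM t)
  have h1 := (hGA κ hκ (U.indicator β) M a hβ' hb).2.2.2.2.2.2.2.2.2
  have h2 : ∫⁻ t in U, ENNReal.ofReal (Ed κ a β t) ≤
      ∫⁻ t, ENNReal.ofReal |Ed κ a (U.indicator β) t| := by
    rw [← lintegral_indicator hU]
    apply lintegral_mono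
    intro t
    by_cases ht : t ∈ U
    · rw [indicator_of_mem ht]
      apply ENNReal.ofReal_le_ofReal
      have h3 : Ed κ a β t = Ed κ a (U.indicator β) t :=
        Ed_congr hGR κ hκ a t _ _ (fun r hr => (indicator_of_mem (hUa t ht hr) β).symm)
      rw [h3]
      exact le_abs_self _
    · rw [indicator_of_notMem ht]
      exact zero_le
  have h4 : ∫⁻ t, ENNReal.ofReal |U.indicator β t| = ∫⁻ t in U, ENNReal.ofReal (β t) := by
    rw [← lintegral_indicator hU]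
    apply lintegral_congr
    intro t
    by_cases ht : t ∈ U
    · rw [indicator_of_mem ht, indicator_of_mem ht, abs_of_nonneg (h0 t)]
    · rw [indicator_of_notMem ht, indicator_of_notMem ht, abs_zero, ENNReal.ofReal_zero]
  exact h2.trans (h1.trans h4.le)

private theorem jensen (hGR : Pool.Agent.Helper61.P3.StGR) (hGA : Pool.Agent.Helper61.P3.StGA)
    (κ : ℤ → ℝ) (hκ : Gr κ) (a : ℤ) (g : ℝ → ℝ) (M : ℝ) (hg : Measurable g)
    (hM : ∀ t, |g t| ≤ M) (t : ℝ) : (Ed κ a g t) ^ 2 ≤ Ed κ a (fun r => g r ^ 2) t := by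
  set μ := Ed κ a g t with hμ
  have hlin := (hGA κ hκ g M a hg hM).2.2.2.2.2.1 (fun _ => 1) 1 (2 * μ) (-(μ ^ 2))
    measurable_const (fun _ => by simp) t
  have h1 : Ed κ a (fun _ => (1 : ℝ)) t = 1 := Ed_const hGR κ hκ a t 1 _ (fun _ _ => rfl)
  rw [h1, ← hμ] at hlin
  have hmeas : Measurable (fun r => 2 * μ * g r + -(μ ^ 2) * 1) :=
    (hg.const_mul _).add_const _
  have hbd : ∀ r, |2 * μ * g r + -(μ ^ 2) * 1| ≤ |2 * μ| * M + μ ^ 2 := by
    intro r
    calc |2 * μ * g r + -(μ ^ 2) * 1| ≤ |2 * μ * g r| + |-(μ ^ 2) * 1| := abs_add_le _ _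
      _ = |2 * μ| * |g r| + μ ^ 2 := by
          rw [abs_mul (2 * μ), mul_one, abs_neg, abs_of_nonneg (sq_nonneg μ)]
      _ ≤ |2 * μ| * M + μ ^ 2 := by
          have := mul_le_mul_of_nonneg_left (hM r) (abs_nonneg (2 * μ))
          linarith
  have hmono := (hGA κ hκ _ _ a hmeas hbd).2.2.2.2.1 (fun r => g r ^ 2) (M ^ 2) (hg.pow_const 2)
    (fun r => by
      rw [abs_of_nonneg (sq_nonneg _), ← sq_abs]
      exact pow_le_pow_left₀ (abs_nonneg _) (hM r) 2)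
    (fun r => by nlinarith [sq_nonneg (g r - μ)]) t
  rw [hlin] at hmono
  nlinarith

private theorem avg_local (hGR : Pool.Agent.Helper61.P3.StGR) (hGA : Pool.Agent.Helper61.P3.StGA)
    (κ : ℤ → ℝ) (hκ : Gr κ) (b : ℤ) (h : ℝ → ℝ) (hh : Measurable h)
    (h0 : ∀ t, 0 ≤ h t ∧ h t ≤ 2) (x L₂ : ℝ) (hb : (2 : ℝ) ^ b ≤ L₂) :
    ∫⁻ t in Icc (x - 5 * L₂) (x + 5 * L₂), ENNReal.ofReal (Ed κ b h t) ≤
      ∫⁻ t in Icc (x - 6 * L₂) (x + 6 * L₂), ENNReal.ofReal (h t) := by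
  obtain ⟨U, hU, hsub, hsup, hUa⟩ := locU hGR κ hκ b (x - 5 * L₂) (x + 5 * L₂) L₂ hb
  calc ∫⁻ t in Icc (x - 5 * L₂) (x + 5 * L₂), ENNReal.ofReal (Ed κ b h t)
      ≤ ∫⁻ t in U, ENNReal.ofReal (Ed κ b h t) := lintegral_mono_set hsub
    _ ≤ ∫⁻ t in U, ENNReal.ofReal (h t) :=
        contr hGR hGA κ hκ b U hU (hUa b le_rfl) h 2 hh (fun t => (h0 t).1) (fun t => (h0 t).2)
    _ ≤ ∫⁻ t in Icc (x - 6 * L₂) (x + 6 * L₂), ENNReal.ofReal (h t) := by
        apply lintegral_mono_set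
        refine hsup.trans (Icc_subset_Icc (by linarith) (by linarith))

private theorem sq_diff_le (u v : ℝ) (hu : 0 ≤ u ∧ u ≤ 2) (hv : 0 ≤ v ∧ v ≤ 2) :
    ENNReal.ofReal ((u - v) ^ 2) ≤ 2 * ENNReal.ofReal u + 2 * ENNReal.ofReal v := by
  have h1 : (u - v) ^ 2 ≤ 2 * u + 2 * v := by
    rcases le_total u v with h | h
    · nlinarith [hu.1, hu.2, hv.1, hv.2]
    · nlinarith [hu.1, hu.2, hv.1, hv.2]
  calc ENNReal.ofReal ((u - v) ^ 2) ≤ ENNReal.ofReal (2 * u + 2 * v) :=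
        ENNReal.ofReal_le_ofReal h1
    _ = 2 * ENNReal.ofReal u + 2 * ENNReal.ofReal v := by
        rw [ENNReal.ofReal_add (by linarith [hu.1]) (by linarith [hv.1]),
          ENNReal.ofReal_mul (by norm_num), ENNReal.ofReal_mul (by norm_num), ENNReal.ofReal_ofNat]

theorem hSMB (hPT : Pool.Agent.Helper20.RG.StPT) (hGR : Pool.Agent.Helper61.P3.StGR)
    (hGA : Pool.Agent.Helper61.P3.StGA) : Pool.Agent.Helper61.P3.StSMB := by
  refine ⟨fun s L₂ z K hs hL hK => part1 hPT s L₂ z K hs hL hK, ?_⟩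
  intro κ h x L₂ a a' ℓ hκ hh h0 haa' ha'ℓ hL
  have hL0 : 0 < L₂ := lt_of_lt_of_le (by positivity) hL
  have hab : ∀ t, |h t| ≤ 2 := fun t => by rw [abs_of_nonneg (h0 t).1]; exact (h0 t).2
  have hE : ∀ b : ℤ, Measurable (Ed κ b h) ∧ ∀ t, 0 ≤ Ed κ b h t ∧ Ed κ b h t ≤ 2 := by
    intro b
    have h1 := hGA κ hκ h 2 b hh hab
    refine ⟨h1.1, fun t => ⟨h1.2.2.2.1 (fun t => (h0 t).1) t, ?_⟩⟩
    exact (le_abs_self _).trans (h1.2.1 t)
  have hpow : ∀ b : ℤ, b ≤ ℓ → (2 : ℝ) ^ b ≤ L₂ := fun b hb =>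
    (zpow_le_zpow_right₀ (by norm_num) hb).trans hL
  refine ⟨?_, ?_, ?_⟩
  · -- the first energy estimate
    set g : ℝ → ℝ := fun t => Ed κ a h t - Ed κ ℓ h t with hg
    have hgm : Measurable g := (hE a).1.sub (hE ℓ).1
    have hgb : ∀ t, |g t| ≤ 2 := by
      intro t
      have h1 := (hE a).2 t
      have h2 := (hE ℓ).2 t
      rw [abs_le]
      constructor
      · show -2 ≤ Ed κ a h t - Ed κ ℓ h t
        linarith
      · show Ed κ a h t - Ed κ ℓ h t ≤ 2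
        linarith
    have hEg : ∀ t, Ed κ a' g t = Ed κ a' h t - Ed κ ℓ h t := by
      intro t
      have h1 := (hGA κ hκ (Ed κ a h) 2 a' (hE a).1
        (fun t => by rw [abs_of_nonneg ((hE a).2 t).1]; exact ((hE a).2 t).2)).2.2.2.2.2.1
        (Ed κ ℓ h) 2 1 (-1) (hE ℓ).1
        (fun t => by rw [abs_of_nonneg ((hE ℓ).2 t).1]; exact ((hE ℓ).2 t).2) t
      have h2 : (fun r => 1 * Ed κ a h r + -1 * Ed κ ℓ h r) = g := by
        funext r
        show 1 * Ed κ a h r + -1 * Ed κ ℓ h r = Ed κ a h r - Ed κ ℓ h r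
        ring
      rw [h2] at h1
      have h3 : Ed κ a' (Ed κ a h) t = Ed κ a' h t :=
        (hGA κ hκ h 2 a hh hab).2.2.2.2.2.2.1 a' haa' t
      have h4 : Ed κ a' (Ed κ ℓ h) t = Ed κ ℓ h t := by
        apply Ed_const hGR κ hκ a' t
        intro r hr
        exact (hGA κ hκ h 2 ℓ hh hab).2.2.1 t r ((hGR.1 κ hκ a' t).2.2.2.2.2 ℓ ha'ℓ hr)
      rw [h1, h3, h4]
      ring
    obtain ⟨U, hU, hsub, hsup, hUa⟩ := locU hGR κ hκ ℓ (x - 4 * L₂) (x + 4 * L₂) L₂ hL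
    calc ∫⁻ t in Icc (x - 4 * L₂) (x + 4 * L₂), ENNReal.ofReal ((Ed κ a' h t - Ed κ ℓ h t) ^ 2)
        ≤ ∫⁻ t in U, ENNReal.ofReal ((Ed κ a' h t - Ed κ ℓ h t) ^ 2) := lintegral_mono_set hsub
      _ ≤ ∫⁻ t in U, ENNReal.ofReal (Ed κ a' (fun r => g r ^ 2) t) := by
          apply lintegral_mono
          intro t
          apply ENNReal.ofReal_le_ofReal
          have h1 := jensen hGR hGA κ hκ a' g 2 hgm hgb t
          rw [hEg t] at h1
          exact h1
      _ ≤ ∫⁻ t in U, ENNReal.ofReal (g t ^ 2) := by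
          apply contr hGR hGA κ hκ a' U hU (hUa a' ha'ℓ) (fun r => g r ^ 2) (2 ^ 2)
            (hgm.pow_const 2) (fun t => sq_nonneg _)
          intro t
          show g t ^ 2 ≤ 2 ^ 2
          rw [← sq_abs]
          exact pow_le_pow_left₀ (abs_nonneg _) (hgb t) 2
      _ ≤ ∫⁻ t in Icc (x - 5 * L₂) (x + 5 * L₂), ENNReal.ofReal (g t ^ 2) := by
          apply lintegral_mono_set
          exact hsup.trans (Icc_subset_Icc (by linarith) (by linarith))
  · calc ∫⁻ t in Icc (x - 5 * L₂) (x + 5 * L₂), ENNReal.ofReal ((Ed κ a h t - Ed κ ℓ h t) ^ 2)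
        ≤ ∫⁻ t in Icc (x - 5 * L₂) (x + 5 * L₂),
          (2 * ENNReal.ofReal (Ed κ a h t) + 2 * ENNReal.ofReal (Ed κ ℓ h t)) :=
          lintegral_mono (fun t => sq_diff_le _ _ ((hE a).2 t) ((hE ℓ).2 t))
      _ = 2 * (∫⁻ t in Icc (x - 5 * L₂) (x + 5 * L₂), ENNReal.ofReal (Ed κ a h t)) +
          2 * ∫⁻ t in Icc (x - 5 * L₂) (x + 5 * L₂), ENNReal.ofReal (Ed κ ℓ h t) := by
          rw [lintegral_add_left ((hE a).1.ennreal_ofReal.const_mul 2),
            lintegral_const_mul 2 (hE a).1.ennreal_ofReal,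
            lintegral_const_mul 2 (hE ℓ).1.ennreal_ofReal]
      _ ≤ 2 * (∫⁻ t in Icc (x - 6 * L₂) (x + 6 * L₂), ENNReal.ofReal (h t)) +
          2 * ∫⁻ t in Icc (x - 6 * L₂) (x + 6 * L₂), ENNReal.ofReal (h t) := by
          refine add_le_add (mul_le_mul' le_rfl ?_) (mul_le_mul' le_rfl ?_)
          · exact avg_local hGR hGA κ hκ a h hh h0 x L₂ (hpow a (haa'.trans ha'ℓ))
          · exact avg_local hGR hGA κ hκ ℓ h hh h0 x L₂ hL
      _ = 4 * ∫⁻ t in Icc (x - 6 * L₂) (x + 6 * L₂), ENNReal.ofReal (h t) := by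
          rw [← add_mul]
          norm_num
  · calc ∫⁻ t in Icc (x - 4 * L₂) (x + 4 * L₂), ENNReal.ofReal ((h t - Ed κ ℓ h t) ^ 2)
        ≤ ∫⁻ t in Icc (x - 4 * L₂) (x + 4 * L₂),
          (2 * ENNReal.ofReal (h t) + 2 * ENNReal.ofReal (Ed κ ℓ h t)) :=
          lintegral_mono (fun t => sq_diff_le _ _ (h0 t) ((hE ℓ).2 t))
      _ = 2 * (∫⁻ t in Icc (x - 4 * L₂) (x + 4 * L₂), ENNReal.ofReal (h t)) +
          2 * ∫⁻ t in Icc (x - 4 * L₂) (x + 4 * L₂), ENNReal.ofReal (Ed κ ℓ h t) := by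
          rw [lintegral_add_left (hh.ennreal_ofReal.const_mul 2),
            lintegral_const_mul 2 hh.ennreal_ofReal,
            lintegral_const_mul 2 (hE ℓ).1.ennreal_ofReal]
      _ ≤ 2 * (∫⁻ t in Icc (x - 6 * L₂) (x + 6 * L₂), ENNReal.ofReal (h t)) +
          2 * ∫⁻ t in Icc (x - 6 * L₂) (x + 6 * L₂), ENNReal.ofReal (h t) := by
          refine add_le_add (mul_le_mul' le_rfl ?_) (mul_le_mul' le_rfl ?_)
          · exact lintegral_mono_set (Icc_subset_Icc (by linarith) (by linarith))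
          · refine (lintegral_mono_set (Icc_subset_Icc ?_ ?_)).trans
              (avg_local hGR hGA κ hκ ℓ h hh h0 x L₂ hL)
            · linarith
            · linarith
      _ = 4 * ∫⁻ t in Icc (x - 6 * L₂) (x + 6 * L₂), ENNReal.ofReal (h t) := by
          rw [← add_mul]
          norm_num

end Pool.Agent.Helper72.P3
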