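import Pool.Agent.Helper61.P3.St2

/-!
# Project P3, module WIG: one class, one window, all scales
-/

set_option autoImplicit false

open MeasureTheory Set Filter Topology
open scoped ENNReal RealInnerProductSpace

namespace Pool.Agent.Helper72.P3

open Pool.Agent.Helper61.P3 Pool.Agent.Helper20.RG Pool.Agent.Helper20.EQ
open Pool.Agent.Helper68.LM (Pl BB Bd Av HL ft fm DQ)
open Pool.Agent.Helper68.EP (elt GapP)

private theorem Zc_cont (hYC : Pool.Agent.Helper20.RG.StYC) (φ τ : ℝ → ℝ) (hG : Graph φ τ)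
    (c : Pl) (u w : ℕ) (k : ℤ) (j : ℕ) (g : Pl → ℝ) (hg : BB g) :
    Continuous (Zc c φ τ u w k j g) := by
  have hs : |sl τ u j| ≤ 1 := hG.1 _
  have hw : (0 : ℝ) < (2 : ℝ) ^ w := by positivity
  have h1 := (hYC (sl τ u j) (ce c φ u j) (mm τ u j) (mm τ u j) ((2 : ℝ) ^ w) k g hs hw hg).1
  have h2 := (hYC (sl τ u j) (ce c φ u j) (mp τ u j) (mp τ u j) ((2 : ℝ) ^ w) k g hs hw hg).1
  exact h1.sub h2

private theorem cheb (F : Pl → ℝ) (hF : Measurable F) (η : ℝ) (hη : 0 < η) :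
    volume {x | η / 8 < |F x|} ≤ ENNReal.ofReal (64 / η ^ 2) * ∫⁻ x, ‖F x‖ₑ ^ 2 := by
  have h1 : {x | η / 8 < |F x|} ⊆ {x | ENNReal.ofReal (η ^ 2 / 64) ≤ ‖F x‖ₑ ^ 2} := by
    intro x hx
    have hx' : η / 8 < |F x| := hx
    show ENNReal.ofReal (η ^ 2 / 64) ≤ ‖F x‖ₑ ^ 2
    rw [Real.enorm_eq_ofReal_abs, ← ENNReal.ofReal_pow (abs_nonneg _)]
    apply ENNReal.ofReal_le_ofReal
    have h2 : η / 8 * (η / 8) ≤ |F x| * |F x| :=
      mul_le_mul hx'.le hx'.le (by positivity) (abs_nonneg _)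
    nlinarith
  have h2 : ENNReal.ofReal (η ^ 2 / 64) * volume {x | ENNReal.ofReal (η ^ 2 / 64) ≤ ‖F x‖ₑ ^ 2} ≤
      ∫⁻ x, ‖F x‖ₑ ^ 2 :=
    mul_meas_ge_le_lintegral₀ ((hF.enorm.pow_const 2).aemeasurable) _
  have h3 : ENNReal.ofReal (64 / η ^ 2) * ENNReal.ofReal (η ^ 2 / 64) = 1 := by
    rw [← ENNReal.ofReal_mul (by positivity)]
    have : 64 / η ^ 2 * (η ^ 2 / 64) = 1 := by
      have h0 : η ≠ 0 := hη.ne'
      field_simp
    rw [this, ENNReal.ofReal_one]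
  calc volume {x | η / 8 < |F x|}
      ≤ volume {x | ENNReal.ofReal (η ^ 2 / 64) ≤ ‖F x‖ₑ ^ 2} := measure_mono h1
    _ = ENNReal.ofReal (64 / η ^ 2) * (ENNReal.ofReal (η ^ 2 / 64) *
          volume {x | ENNReal.ofReal (η ^ 2 / 64) ≤ ‖F x‖ₑ ^ 2}) := by
        rw [← mul_assoc, h3, one_mul]
    _ ≤ ENNReal.ofReal (64 / η ^ 2) * ∫⁻ x, ‖F x‖ₑ ^ 2 := mul_le_mul' le_rfl h2

theorem hWIG (hYC : Pool.Agent.Helper20.RG.StYC) (hWIK : Pool.Agent.Helper61.P3.StWIK)
    (hOVL : Pool.Agent.Helper61.P3.StOVL) (hSHQ : Pool.Agent.Helper61.P3.StSHQ)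
    (hENS : Pool.Agent.Helper61.P3.StENS) : Pool.Agent.Helper61.P3.StWIG := by
  intro φ τ A c hG hA hGap
  obtain ⟨C₁, hC₁, h1⟩ := hWIK φ τ A c hG hA hGap
  obtain ⟨C₂, hC₂, h2⟩ := hSHQ φ τ A c hG hA hGap
  obtain ⟨C₃, hC₃, h3⟩ := hENS φ τ A c hG hA hGap
  refine ⟨40000 * C₁ * C₂ + C₁ * C₃, by nlinarith [mul_le_mul hC₁ hC₂ zero_le_one (by linarith)],
    ?_⟩
  intro u q v₀ η D m g R hu huq hv₀ hv₀u hqη hη1 hg hg01 hm hD hDm hnn hR
  have hη : 0 < η := lt_of_lt_of_le (by positivity) hqη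
  have hm0 : 0 < m := by linarith
  have hq1 : 1 ≤ q := by omega
  have hEzm : ∀ (k : ℤ) (j : ℕ), MeasurableSet (Ez c φ τ u (32 * q) η k g j) := by
    intro k j
    have hc := (Zc_cont hYC φ τ hG c u (32 * q) k j g hg)
    exact measurableSet_lt measurable_const hc.abs.measurable
  have hk : ∀ k : ℤ, volume (R k) ≤ ENNReal.ofReal (C₁ * D / m ^ 3 * (2 : ℝ) ^ v₀) *
      (625 * (ENNReal.ofReal (64 / η ^ 2) * ∑ j ∈ Finset.range (2 ^ u),
        ∫⁻ x, ‖Zc c φ τ u (32 * q) k j g x‖ₑ ^ 2)) +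
      ENNReal.ofReal (C₁ * D ^ 2 / m ^ 4) * EC c φ τ u q v₀ η (m / (125 * D)) k g := by
    intro k
    refine (h1 u q v₀ η D m k g (R k) hu huq hv₀ hv₀u hqη hη1 hg hg01 hm hD hDm hnn
      (fun x hx => hR k x hx)).trans ?_
    refine add_le_add (mul_le_mul' le_rfl ?_) le_rfl
    set L₂ : ℝ := (2 : ℝ) ^ (k + 28 * (q : ℤ)) with hL₂
    have hL₂0 : 0 < L₂ := by positivity
    calc (∑' n : ℤ × ℤ, {n : ℤ × ℤ | (R k ∩ Sq (zg L₂ n) (L₂ / 2)).Nonempty}.indicator
            (fun n => ∑ j ∈ Finset.range (2 ^ u), volume (Ez c φ τ u (32 * q) η k g j ∩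
              Sq (zg L₂ n) (12 * L₂))) n)
        ≤ ∑' n : ℤ × ℤ, ∑ j ∈ Finset.range (2 ^ u), volume (Ez c φ τ u (32 * q) η k g j ∩
              Sq (zg L₂ n) (12 * L₂)) := by
          refine ENNReal.tsum_le_tsum fun n => ?_
          exact indicator_le_self _ _ _
      _ = ∑ j ∈ Finset.range (2 ^ u), ∑' n : ℤ × ℤ, volume (Ez c φ τ u (32 * q) η k g j ∩
              Sq (zg L₂ n) (12 * L₂)) :=
          Summable.tsum_finsetSum (fun _ _ => ENNReal.summable)
      _ ≤ ∑ j ∈ Finset.range (2 ^ u), 625 * (ENNReal.ofReal (64 / η ^ 2) *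
            ∫⁻ x, ‖Zc c φ τ u (32 * q) k j g x‖ₑ ^ 2) := by
          refine Finset.sum_le_sum fun j _ => ?_
          refine (hOVL.2.1 L₂ _ hL₂0 (hEzm k j)).trans ?_
          refine mul_le_mul' le_rfl ?_
          exact cheb _ (Zc_cont hYC φ τ hG c u (32 * q) k j g hg).measurable η hη
      _ = _ := by rw [Finset.mul_sum, Finset.mul_sum]
  have hsum1 := (h2 u (32 * q) g hu hg).2.2.1
  have hsum2 := h3 u q v₀ η (m / (125 * D)) g hu hq1 hv₀ hη hη1 (by positivity) hg hg01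
  calc ∑' k : ℤ, volume (R k)
      ≤ ∑' k : ℤ, (ENNReal.ofReal (C₁ * D / m ^ 3 * (2 : ℝ) ^ v₀) *
      (625 * (ENNReal.ofReal (64 / η ^ 2) * ∑ j ∈ Finset.range (2 ^ u),
        ∫⁻ x, ‖Zc c φ τ u (32 * q) k j g x‖ₑ ^ 2)) +
      ENNReal.ofReal (C₁ * D ^ 2 / m ^ 4) * EC c φ τ u q v₀ η (m / (125 * D)) k g) :=
        ENNReal.tsum_le_tsum hk
    _ = ENNReal.ofReal (C₁ * D / m ^ 3 * (2 : ℝ) ^ v₀) *
      (625 * (ENNReal.ofReal (64 / η ^ 2) * ∑' k : ℤ, ∑ j ∈ Finset.range (2 ^ u),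
        ∫⁻ x, ‖Zc c φ τ u (32 * q) k j g x‖ₑ ^ 2)) +
      ENNReal.ofReal (C₁ * D ^ 2 / m ^ 4) *
        ∑' k : ℤ, EC c φ τ u q v₀ η (m / (125 * D)) k g := by
        rw [ENNReal.tsum_add, ENNReal.tsum_mul_left, ENNReal.tsum_mul_left, ENNReal.tsum_mul_left,
          ENNReal.tsum_mul_left]
    _ ≤ ENNReal.ofReal (C₁ * D / m ^ 3 * (2 : ℝ) ^ v₀) *
      (625 * (ENNReal.ofReal (64 / η ^ 2) * (ENNReal.ofReal C₂ * BQ0 τ u g))) +
      ENNReal.ofReal (C₁ * D ^ 2 / m ^ 4) *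
        (ENNReal.ofReal (C₃ * (m / (125 * D)) / η ^ 2) * EX τ u v₀ g) := by
        refine add_le_add (mul_le_mul' le_rfl (mul_le_mul' le_rfl (mul_le_mul' le_rfl hsum1)))
          (mul_le_mul' le_rfl hsum2)
    _ ≤ ENNReal.ofReal ((40000 * C₁ * C₂ + C₁ * C₃) * D / (m ^ 3 * η ^ 2)) *
        (ENNReal.ofReal ((2 : ℝ) ^ v₀) * BQ0 τ u g + EX τ u v₀ g) := by
        rw [mul_add]
        have hC₁0 : 0 < C₁ := by linarith
        have hC₂0 : 0 < C₂ := by linarith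
        have hC₃0 : 0 < C₃ := by linarith
        refine add_le_add ?_ ?_
        · rw [← ENNReal.ofReal_ofNat 625]
          calc ENNReal.ofReal (C₁ * D / m ^ 3 * (2 : ℝ) ^ v₀) *
              (ENNReal.ofReal 625 * (ENNReal.ofReal (64 / η ^ 2) *
                (ENNReal.ofReal C₂ * BQ0 τ u g)))
              = ENNReal.ofReal (C₁ * D / m ^ 3 * (2 : ℝ) ^ v₀ * (625 * (64 / η ^ 2 * C₂))) *
                BQ0 τ u g := by
                rw [ENNReal.ofReal_mul (p := C₁ * D / m ^ 3 * (2 : ℝ) ^ v₀) (by positivity),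
                  ENNReal.ofReal_mul (p := (625 : ℝ)) (by positivity),
                  ENNReal.ofReal_mul (p := 64 / η ^ 2) (by positivity)]
                ring
            _ ≤ ENNReal.ofReal ((40000 * C₁ * C₂ + C₁ * C₃) * D / (m ^ 3 * η ^ 2) *
                (2 : ℝ) ^ v₀) * BQ0 τ u g := by
                refine mul_le_mul' (ENNReal.ofReal_le_ofReal ?_) le_rfl
                have e : C₁ * D / m ^ 3 * (2 : ℝ) ^ v₀ * (625 * (64 / η ^ 2 * C₂)) =
                    (40000 * C₁ * C₂) * D / (m ^ 3 * η ^ 2) * (2 : ℝ) ^ v₀ := by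
                  field_simp
                  ring
                rw [e]
                refine mul_le_mul_of_nonneg_right ?_ (by positivity)
                refine div_le_div_of_nonneg_right ?_ (by positivity)
                refine mul_le_mul_of_nonneg_right ?_ hD.le
                have : 0 < C₁ * C₃ := by positivity
                linarith
            _ = ENNReal.ofReal ((40000 * C₁ * C₂ + C₁ * C₃) * D / (m ^ 3 * η ^ 2)) *
                (ENNReal.ofReal ((2 : ℝ) ^ v₀) * BQ0 τ u g) := by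
                rw [ENNReal.ofReal_mul (by positivity), mul_assoc]
        · calc ENNReal.ofReal (C₁ * D ^ 2 / m ^ 4) *
              (ENNReal.ofReal (C₃ * (m / (125 * D)) / η ^ 2) * EX τ u v₀ g)
              = ENNReal.ofReal (C₁ * D ^ 2 / m ^ 4 * (C₃ * (m / (125 * D)) / η ^ 2)) *
                EX τ u v₀ g := by
                rw [ENNReal.ofReal_mul (p := C₁ * D ^ 2 / m ^ 4) (by positivity), mul_assoc]
            _ ≤ ENNReal.ofReal ((40000 * C₁ * C₂ + C₁ * C₃) * D / (m ^ 3 * η ^ 2)) *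
                EX τ u v₀ g := by
                refine mul_le_mul' (ENNReal.ofReal_le_ofReal ?_) le_rfl
                have e : C₁ * D ^ 2 / m ^ 4 * (C₃ * (m / (125 * D)) / η ^ 2) =
                    (C₁ * C₃ / 125) * D / (m ^ 3 * η ^ 2) := by
                  field_simp
                rw [e]
                refine div_le_div_of_nonneg_right ?_ (by positivity)
                refine mul_le_mul_of_nonneg_right ?_ hD.le
                have h4 : 0 < C₁ * C₃ := by positivity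
                have h5 : 0 < 40000 * C₁ * C₂ := by positivity
                linarith

end Pool.Agent.Helper72.P3
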